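import Pool.Agent.MP_6e51af_nt.H39.Mu

/-! Deterministic consequences of a regular counting function. -/

namespace Pool.Agent.MP_6e51af_nt.H39

open Finset Filter Real

variable {p : ℕ → Prop} [DecidablePred p] {c : ℝ} {k : ℕ}

/-- the counting function stays close to its mean -/
def Near (p : ℕ → Prop) [DecidablePred p] (c : ℝ) (k : ℕ) : Prop :=
  ∀ δ : ℝ, 0 < δ → ∀ᶠ x : ℕ in atTop, ∀ y ≤ x,
    |(Nat.count p y : ℝ) - mu c k y| ≤ δ * x / log x ^ (k + 1)

lemma cnt_bounds (hc : 0 < c) (hk : 1 ≤ k) (h : Near p c k) : ∃ C : ℝ, 0 ≤ C ∧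
    ∀ᶠ x : ℕ in atTop, c * x / log x ^ k - C * x / log x ^ (k + 1) ≤ Nat.count p (x + 1) ∧
      (Nat.count p (x + 1) : ℝ) ≤ c * x / log x ^ k + C * x / log x ^ (k + 1) := by
  obtain ⟨C, hC⟩ := mu_upper hc hk
  refine ⟨|C| + 2, by positivity, ?_⟩
  filter_upwards [hC, h 1 one_pos, ev_log 1, ev_pow 1 (k + 1), ev_pow (2 * c) 1,
    eventually_ge_atTop 2] with x h1 h2 h3 h4 h5 h6
  have a := abs_le.1 (h2 x le_rfl)
  have b := mu_lower k hc x h6
  have l0 : 0 < log (x : ℝ) := by linarith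
  have u0 : (0 : ℝ) ≤ x / log x ^ (k + 1) := by positivity
  have u1 : (1 : ℝ) ≤ x / log x ^ (k + 1) := by
    rw [le_div_iff₀ (by positivity)]
    exact h4
  have u2 : 2 * (c / log x ^ k) ≤ x / log x ^ (k + 1) := by
    have : 2 * (c / log x ^ k) = 2 * c * log x ^ 1 / log x ^ (k + 1) := by
      field_simp
      ring
    rw [this]
    gcongr
  have n1 : (Nat.count p x : ℝ) ≤ Nat.count p (x + 1) := by
    exact_mod_cast Nat.count_monotone p (Nat.le_succ x)
  have n2 : (Nat.count p (x + 1) : ℝ) ≤ Nat.count p x + 1 := by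
    have : Nat.count p (x + 1) ≤ Nat.count p x + 1 := by
      rw [Nat.count_succ]
      split_ifs <;> omega
    exact_mod_cast this
  have q1 := mul_le_mul_of_nonneg_right (le_abs_self C) u0
  have q2 := mul_nonneg (abs_nonneg C) u0
  have e0 : c * x / log x ^ k = x * (c / log x ^ k) := by ring
  rw [mul_div_assoc] at a
  rw [mul_div_assoc C, e0] at h1
  rw [mul_div_assoc (|C| + 2), e0]
  constructor <;> nlinarith

lemma infinite (hc : 0 < c) (hk : 1 ≤ k) (h : Near p c k) : {m | p m}.Infinite := by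
  intro hf
  obtain ⟨C, C0, hC⟩ := cnt_bounds hc hk h
  obtain ⟨x, ⟨h1, -⟩, h2, h3, h4⟩ := (hC.and ((ev_log ((C + 1) / c)).and
    ((ev_pow (hf.toFinset.card + 1) (k + 1)).and (ev_log 1)))).exists
  have a : (Nat.count p (x + 1) : ℝ) ≤ hf.toFinset.card := by
    exact_mod_cast Nat.count_le_card hf (x + 1)
  have l0 : 0 < log (x : ℝ) := by linarith
  rw [div_le_iff₀ hc] at h2
  rw [← le_div_iff₀ (by positivity)] at h3
  have e : c * x / log x ^ k - C * x / log x ^ (k + 1) =
      (log x * c - C) * (x / log x ^ (k + 1)) := by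
    field_simp
    ring
  have u0 : (0 : ℝ) ≤ x / log x ^ (k + 1) := by positivity
  rw [e] at h1
  nlinarith

lemma sum_nth (x : ℕ) : ∑ i ∈ range (Nat.count p x), (Nat.nth p i : ℝ) +
    ∑ y ∈ range x, (Nat.count p (y + 1) : ℝ) = x * Nat.count p x := by
  induction x with
  | zero => simp
  | succ x ih =>
    rw [sum_range_succ (fun y => (Nat.count p (y + 1) : ℝ)), Nat.count_succ]
    split_ifs with h
    · rw [sum_range_succ, Nat.nth_count h]
      push_cast
      linarith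
    · push_cast
      rw [add_zero]
      linarith

omit [DecidablePred p] in
lemma tend (hi : {m | p m}.Infinite) : Tendsto (Nat.nth p) atTop atTop :=
  (Nat.nth_strictMono hi).tendsto_atTop

/-- the lower inequality -/
lemma lower (hc : 0 < c) (hk : 1 ≤ k) (h : Near p c k) : ∀ᶠ n : ℕ in atTop,
    2 / ((n : ℝ) - 1) * ∑ i ∈ range n, (Nat.nth p i : ℝ) < Nat.nth p n := by
  have hi := infinite hc hk h
  have key : ∀ᶠ x : ℕ in atTop,
      x * (Nat.count p x : ℝ) + x < 2 * ∑ y ∈ range x, (Nat.count p (y + 1) : ℝ) := by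
    filter_upwards [mu_gain hc hk, h (c / 128) (by positivity), ev_log 1,
      ev_pow (300 / c) (k + 1), eventually_ge_atTop 1] with x h1 h2 h3 h4 h5
    have hx : (1 : ℝ) ≤ x := by exact_mod_cast h5
    have l0 : 0 < log (x : ℝ) := by linarith
    have a : ∑ y ∈ range x, (mu c k (y + 1) - c / 128 * x / log x ^ (k + 1)) ≤
        ∑ y ∈ range x, (Nat.count p (y + 1) : ℝ) := sum_le_sum fun y hy => by
      have := abs_le.1 (h2 (y + 1) (mem_range.1 hy))
      linarith
    rw [sum_sub_distrib, sum_const, card_range, nsmul_eq_mul] at a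
    have b := mul_le_mul_of_nonneg_left (abs_le.1 (h2 x le_rfl)).2 (show (0 : ℝ) ≤ x by linarith)
    have d : 300 ≤ c * (x / log x ^ (k + 1)) := by
      rw [← mul_div_assoc, le_div_iff₀ (by positivity)]
      have := mul_le_mul_of_nonneg_left h4 hc.le
      rwa [← mul_assoc, mul_div_cancel₀ _ hc.ne'] at this
    have e1 : c / 128 * x / log x ^ (k + 1) = c * (x / log x ^ (k + 1)) / 128 := by ring
    have e2 : c / 32 * x ^ 2 / log x ^ (k + 1) = x * (c * (x / log x ^ (k + 1))) / 32 := by ring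
    rw [e1] at a b
    rw [e2] at h1
    nlinarith
  filter_upwards [(tend hi).eventually key, eventually_ge_atTop 2] with n h1 h2
  have a := sum_nth (p := p) (Nat.nth p n)
  rw [Nat.count_nth_of_infinite hi] at a h1
  have : (2 : ℝ) ≤ n := by exact_mod_cast h2
  rw [div_mul_eq_mul_div, div_lt_iff₀ (by linarith)]
  linarith

/-- short gaps give the upper inequality -/
lemma upper_holds (hc : 0 < c) (hk : 1 ≤ k) (h : Near p c k)
    (hg : ∀ D : ℝ, ∀ᶠ q : ℕ in atTop, p q → ∃ m, p m ∧ q < m ∧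
      (m : ℝ) ≤ q + (log q ^ (k + 1) / c - D * log q ^ k)) :
    ∀ᶠ n : ℕ in atTop, (Nat.nth p n : ℝ) < (Nat.nth p (n - 1) : ℝ) ^ (1 + 1 / (n : ℝ)) := by
  have hi := infinite hc hk h
  obtain ⟨C, C0, hC⟩ := cnt_bounds hc hk h
  have t : Tendsto (fun n => Nat.nth p (n - 1)) atTop atTop :=
    (tend hi).comp (tendsto_sub_atTop_nat 1)
  filter_upwards [t.eventually (hC.and ((hg (C / c ^ 2)).and ((ev_log 1).and
    (eventually_ge_atTop 1)))), eventually_ge_atTop 1] with n ⟨⟨_, h1⟩, h2, h3, h4⟩ h5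
  obtain ⟨m, m1, m2, m3⟩ := h2 (Nat.nth_mem_of_infinite hi _)
  rw [Nat.count_nth_succ_of_infinite hi, Nat.sub_add_cancel h5] at h1
  have a : Nat.nth p n ≤ m := by
    rw [← Nat.nth_count m1] at m2 ⊢
    exact Nat.nth_monotone hi (by have := (Nat.nth_lt_nth hi).1 m2; omega)
  have a' : (Nat.nth p n : ℝ) ≤ m := by exact_mod_cast a
  generalize Nat.nth p (n - 1) = q at *
  have hq : (0 : ℝ) < q := by exact_mod_cast h4
  have hn : (0 : ℝ) < n := by exact_mod_cast h5
  have l0 : 0 < log (q : ℝ) := by linarith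
  rw [rpow_add hq, rpow_one, rpow_def_of_pos hq]
  have b := add_one_lt_exp (x := log q * (1 / n)) (by positivity)
  have d : log q ^ (k + 1) / c - C / c ^ 2 * log q ^ k ≤ q * (log q * (1 / n)) := by
    rw [mul_one_div, ← mul_div_assoc, le_div_iff₀ hn]
    by_cases hs : 0 ≤ log q ^ (k + 1) / c - C / c ^ 2 * log q ^ k
    · refine (mul_le_mul_of_nonneg_left h1 hs).trans ?_
      have e : (log q ^ (k + 1) / c - C / c ^ 2 * log q ^ k) *
          (c * q / log q ^ k + C * q / log q ^ (k + 1)) =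
          q * log q - C ^ 2 * q / (c ^ 2 * log q) := by
        field_simp
        ring
      have : 0 ≤ C ^ 2 * q / (c ^ 2 * log q) := by positivity
      linarith
    · have : 0 ≤ q * log (q : ℝ) := by positivity
      nlinarith
  nlinarith

/-- long gaps break the upper inequality -/
lemma upper_fails (hc : 0 < c) (h : Near p c 1)
    (hg : ∀ D : ℝ, ∃ᶠ q : ℕ in atTop, p q ∧ ∀ m, p m → q < m →
      q + (log q ^ 2 / c + D * log q) ≤ (m : ℝ)) :
    ¬ ∀ᶠ n : ℕ in atTop, (Nat.nth p n : ℝ) < (Nat.nth p (n - 1) : ℝ) ^ (1 + 1 / (n : ℝ)) := by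
  intro hu
  have hi := infinite hc le_rfl h
  obtain ⟨C, C0, hC⟩ := cnt_bounds hc le_rfl h
  obtain ⟨n0, hn0⟩ := eventually_atTop.1 hu
  obtain ⟨q, ⟨q1, q2⟩, ⟨h1, -⟩, h2, h3, h4, h5, h6⟩ := ((hg (2 * C / c ^ 2 + 1)).and_eventually
    (hC.and ((ev_log (2 * C / c)).and ((ev_log 1).and ((ev_pow (4 / c ^ 2) 4).and
    ((ev_pow (2 / c) 2).and (eventually_ge_atTop (Nat.nth p n0 + 1)))))))).exists
  have a : n0 ≤ Nat.count p q := by
    by_contra hlt
    have : Nat.nth p (Nat.count p q) ≤ Nat.nth p n0 :=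
      Nat.nth_monotone hi (show Nat.count p q ≤ n0 by omega)
    rw [Nat.nth_count q1] at this
    omega
  have b := hn0 (Nat.count p q + 1) (by omega)
  rw [Nat.add_sub_cancel, Nat.nth_count q1] at b
  have d := q2 _ (Nat.nth_mem_of_infinite hi (Nat.count p q + 1)) (by
    conv_lhs => rw [← Nat.nth_count q1]
    exact (Nat.nth_lt_nth hi).2 (Nat.lt_succ_self _))
  rw [Nat.count_succ, if_pos q1] at h1
  have hn : (0 : ℝ) < ((Nat.count p q + 1 : ℕ) : ℝ) := by positivity
  generalize ((Nat.count p q + 1 : ℕ) : ℝ) = n at h1 hn b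
  have hq : (0 : ℝ) < q := by exact_mod_cast (by omega : 0 < q)
  have l0 : 0 < log (q : ℝ) := by linarith
  rw [rpow_add hq, rpow_one, rpow_def_of_pos hq] at b
  set l := log (q : ℝ) with hl
  rw [div_le_iff₀ hc] at h2
  have u1 : q * (l * (1 / n)) ≤ l ^ 2 / c + 2 * C / c ^ 2 * l := by
    rw [mul_one_div, ← mul_div_assoc, div_le_iff₀ hn]
    refine le_trans ?_ (mul_le_mul_of_nonneg_left h1 (by positivity))
    have e : (l ^ 2 / c + 2 * C / c ^ 2 * l) * (c * q / l ^ 1 - C * q / l ^ (1 + 1)) =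
        q * l + C * q * (l * c - 2 * C) / (c ^ 2 * l) := by
      field_simp
      ring
    have : 0 ≤ C * q * (l * c - 2 * C) / (c ^ 2 * l) :=
      div_nonneg (mul_nonneg (by positivity) (by linarith)) (by positivity)
    linarith
  have u2 : 2 * C / c ^ 2 * l ≤ l ^ 2 / c := by
    rw [div_mul_eq_mul_div, div_le_div_iff₀ (by positivity) hc]
    have := mul_le_mul_of_nonneg_right h2 (by positivity : 0 ≤ l * c)
    nlinarith
  have u0 : 0 ≤ l * (1 / n) := by positivity
  generalize l * (1 / n) = u at u0 u1 b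
  have e3 : 2 / c * l ^ 2 = 2 * (l ^ 2 / c) := by ring
  have e4 : 4 / c ^ 2 * l ^ 4 = (2 * (l ^ 2 / c)) ^ 2 := by ring
  have u3 : u ≤ 1 := by
    by_contra hh
    nlinarith
  have u4 : q * u ^ 2 ≤ 1 := by
    have v := pow_le_pow_left₀ (by positivity) (show q * u ≤ 2 * (l ^ 2 / c) by linarith) 2
    by_contra hh
    nlinarith
  have u5 := (abs_le.1 (abs_exp_sub_one_sub_id_le (x := u) (by rwa [abs_of_nonneg u0]))).2
  nlinarith

end Pool.Agent.MP_6e51af_nt.H39
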