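import Pool.Agent.MP_6e51af_nt.H39.Prob

/-! Long gaps: finitely many for `k ≥ 2`, infinitely many for `k = 1`. -/

namespace Pool.Agent.MP_6e51af_nt.H39

open Finset Filter Real MeasureTheory ProbabilityTheory

variable {Ω : Type*} [MeasurableSpace Ω] {P : Measure Ω} [IsProbabilityMeasure P]
  {A : ℕ → Set Ω} {c B : ℝ} {k : ℕ}

lemma window {r : ℕ → ℝ} (h2 : ∀ y, |∑ m ∈ range y, r m - mu c k y| ≤ B) (a g : ℕ) :
    |∑ m ∈ Ioc a (a + g), r m - ∑ m ∈ Ioc a (a + g), c / log m ^ k| ≤ 2 * B := by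
  have e : ∀ f : ℕ → ℝ, ∑ m ∈ Ioc a (a + g), f m =
      ∑ m ∈ range (a + g + 1), f m - ∑ m ∈ range (a + 1), f m := by
    intro f
    rw [← sum_Ico_eq_sub f (by omega)]
    congr 1
    ext m
    simp only [mem_Ioc, mem_Ico]
    omega
  have a1 := abs_le.1 (h2 (a + g + 1))
  have a2 := abs_le.1 (h2 (a + 1))
  rw [mu] at a1 a2
  rw [e, e, abs_le]
  constructor <;> linarith

lemma log_two_mul {q m : ℕ} (h0 : 0 < m) (h : m ≤ q + q) : log (m : ℝ) ≤ log q + 1 := by
  have hq : (0 : ℝ) < q := by exact_mod_cast (by omega : 0 < q)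
  have a := log_le_log (by exact_mod_cast h0) (show (m : ℝ) ≤ 2 * q by
    have : (m : ℝ) ≤ q + q := by exact_mod_cast h
    linarith)
  have b := log_le_sub_one_of_pos (by norm_num : (0 : ℝ) < 2)
  rw [log_mul (by norm_num) hq.ne'] at a
  linarith

lemma win_lower (hc : 0 < c) {q g : ℕ} (hq : 2 ≤ q) (hg : g ≤ q) :
    g * (c / (log q + 1) ^ k) ≤ ∑ m ∈ Ioc q (q + g), c / log m ^ k := by
  have a := card_nsmul_le_sum (Ioc q (q + g)) (fun m => c / log m ^ k) (c / (log q + 1) ^ k)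
    fun m hm => by
      obtain ⟨h1, h2⟩ := mem_Ioc.1 hm
      have := log_ge_half (m := m) (hq.trans h1.le)
      have := log_two_mul (q := q) (m := m) (by omega) (by omega)
      gcongr
  simpa using a

lemma win_upper (hc : 0 ≤ c) {q : ℕ} (g : ℕ) (hq : 2 ≤ q) :
    ∑ m ∈ Ioc q (q + g), c / log m ^ k ≤ g * (c / log q ^ k) := by
  have a := sum_le_card_nsmul (Ioc q (q + g)) (fun m => c / log m ^ k) (c / log q ^ k)
    fun m hm => by
      obtain ⟨h1, h2⟩ := mem_Ioc.1 hm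
      have := log_ge_half hq
      have : log (q : ℝ) ≤ log m := log_le_log (by exact_mod_cast (by omega : 0 < q))
        (by exact_mod_cast h1.le)
      gcongr
  simpa using a

lemma summable_log_sq : Summable fun q : ℕ => ((q : ℝ) * log q ^ 2)⁻¹ := by
  rw [← summable_condensed_iff_of_eventually_nonneg (Eventually.of_forall fun q => by positivity)]
  · refine ((summable_nat_pow_inv.2 one_lt_two).mul_left ((log 2 ^ 2)⁻¹)).congr fun j => ?_
    push_cast
    rw [log_pow, mul_inv, mul_pow, mul_inv]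
    field_simp
  · filter_upwards [eventually_ge_atTop 2] with q hq
    have := log_ge_half hq
    have h0 : (0 : ℝ) < q := by exact_mod_cast (by omega : 0 < q)
    push_cast
    gcongr <;> linarith

lemma short_gaps (hA : ∀ m, MeasurableSet (A m)) (hind : iIndepSet A P) (hc : 0 < c) (hk : 2 ≤ k)
    (h1 : ∀ m, 2 ≤ m → P.real (A m) ≤ B / log m ^ k)
    (h2 : ∀ y, |∑ m ∈ range y, P.real (A m) - mu c k y| ≤ B) (D : ℕ) :
    ∀ᵐ ω ∂P, ∀ᶠ q : ℕ in atTop, (0 < q ∧ ω ∈ A q) → ∃ m, (0 < m ∧ ω ∈ A m) ∧ q < m ∧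
      (m : ℝ) ≤ q + (log q ^ (k + 1) / c - D * log q ^ k) := by
  have B0 : 0 ≤ B := (abs_nonneg _).trans (h2 0)
  have pos : ∀ᶠ q : ℕ in atTop, 0 ≤ log q ^ (k + 1) / c - D * log q ^ k := by
    filter_upwards [ev_log (c * D)] with q h
    have := log_natCast_nonneg q
    rw [sub_nonneg, le_div_iff₀ hc, pow_succ]
    nlinarith [pow_nonneg this k]
  have a := bc1 (P := P) (fun q => V A {q} (Ioc q (q + ⌊log q ^ (k + 1) / c - D * log q ^ k⌋₊))) _
    (summable_log_sq.mul_left (B * exp (c * D + c + k + 2 * B))) (by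
    filter_upwards [pos, ev_log (c * D + c + 1), ev_pow (1 / c) (k + 1), eventually_ge_atTop 2]
      with q g0 g1 g2 g3
    have g4 := Nat.floor_le g0
    have g5 := Nat.lt_floor_add_one (log q ^ (k + 1) / c - D * log q ^ k)
    generalize ⌊log q ^ (k + 1) / c - D * log q ^ k⌋₊ = g at g4 g5
    have hq : (0 : ℝ) < q := by exact_mod_cast (by omega : 0 < q)
    have cD : 0 ≤ c * D := by positivity
    have l1 : 1 ≤ log (q : ℝ) := by linarith
    have g6 : g ≤ q := by
      have : 0 ≤ D * log (q : ℝ) ^ k := by positivity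
      rw [one_div, inv_mul_eq_div] at g2
      exact_mod_cast (by linarith : (g : ℝ) ≤ q)
    have w1 := (abs_le.1 (window h2 q g)).1
    have w2 := win_lower (k := k) hc g3 g6
    have w3 : log q - (c * D + c + k) ≤ g * (c / (log q + 1) ^ k) := by
      set l := log (q : ℝ)
      have b1 := one_add_mul_sub_le_pow (a := l / (l + 1)) (by
        have : 0 ≤ l / (l + 1) := by positivity
        linarith) k
      have b2 : 1 ≤ l ^ k := one_le_pow₀ l1
      have b3 : (l - (c * D + c)) * l ^ k ≤ g * c := by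
        have := mul_le_mul_of_nonneg_right g5.le hc.le
        rw [sub_mul, div_mul_cancel₀ _ hc.ne', pow_succ] at this
        nlinarith
      have b4 := mul_le_mul_of_nonneg_left b1 (show 0 ≤ l - (c * D + c) by linarith)
      have b5 : (l - (c * D + c)) * (l / (l + 1)) ^ k ≤ g * (c / (l + 1) ^ k) := by
        rw [div_pow, ← mul_div_assoc, ← mul_div_assoc]
        gcongr
      have b6 : (l - (c * D + c)) * (1 + k * (l / (l + 1) - 1)) =
          l - (c * D + c + k) + k * (c * D + c + 1) / (l + 1) := by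
        field_simp
        ring
      have b7 : 0 ≤ k * (c * D + c + 1) / (l + 1) := by positivity
      linarith
    rw [V_prob hA hind _ _ (disj _ _), prod_singleton]
    have p1 : ∏ m ∈ Ioc q (q + g), (1 - P.real (A m)) ≤ exp (c * D + c + k + 2 * B) * (q : ℝ)⁻¹ := by
      refine (prod_le_prod (fun m _ => sub_nonneg.2 measureReal_le_one)
        fun m _ => one_sub_le_exp_neg _).trans ?_
      rw [← exp_sum, sum_neg_distrib, ← exp_log (inv_pos.2 hq), ← exp_add, log_inv]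
      exact exp_le_exp.2 (by linarith)
    have p2 : P.real (A q) ≤ B / log q ^ 2 := (h1 q g3).trans (by
      gcongr)
    refine (mul_le_mul p2 p1 (prod_nonneg fun m _ => sub_nonneg.2 measureReal_le_one)
      (by positivity)).trans (le_of_eq ?_)
    rw [mul_inv]
    ring)
  filter_upwards [a] with ω hω
  filter_upwards [hω, pos] with q h3 h4 h5
  by_contra h6
  refine h3 ⟨by simpa using h5.2, fun m hm hh => h6 ⟨m, ⟨by have := (mem_Ioc.1 hm).1; omega, hh⟩,
    (mem_Ioc.1 hm).1, ?_⟩⟩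
  have b : (m : ℝ) ≤ q + ⌊log q ^ (k + 1) / c - D * log q ^ k⌋₊ := by
    exact_mod_cast (mem_Ioc.1 hm).2
  linarith [Nat.floor_le h4]

lemma not_summable {r : ℕ → ℝ} (hc : 0 < c) (h0 : ∀ m, 0 ≤ r m)
    (h2 : ∀ y, |∑ m ∈ range y, r m - mu c 1 y| ≤ B) : ¬ Summable fun q : ℕ => r q / q := by
  intro hs
  have n0 : ∀ q : ℕ, 0 ≤ r q / q := fun q => div_nonneg (h0 q) (by positivity)
  have a : Summable fun j : ℕ => ∑ q ∈ Ioc (2 ^ (j + 1)) (2 ^ (j + 2)), r q / q := by
    refine summable_of_sum_range_le (c := ∑' q : ℕ, r q / q)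
      (fun j => sum_nonneg fun q _ => n0 q) fun J => ?_
    have e : ∑ j ∈ range J, ∑ q ∈ Ioc (2 ^ (j + 1)) (2 ^ (j + 2)), r q / q =
        ∑ q ∈ Ioc 2 (2 ^ (J + 1)), r q / q := by
      induction J with
      | zero => simp
      | succ J ih =>
        rw [sum_range_succ, ih, sum_Ioc_consecutive _ (Nat.le_self_pow (by omega) 2)
          (Nat.pow_le_pow_right (by norm_num) (by omega))]
    rw [e]
    exact hs.sum_le_tsum _ fun q _ => n0 q
  have b := (a.add (summable_geometric_two.mul_left B)).mul_left (2 / c)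
  refine not_summable_one_div_natCast ((summable_nat_add_iff 2).1
    (b.of_nonneg_of_le (fun j => by positivity) fun j => ?_))
  have B0 : 0 ≤ B := (abs_nonneg _).trans (h2 0)
  have q2 : 2 ≤ 2 ^ (j + 1) := Nat.le_self_pow (by omega) 2
  have w1 := (abs_le.1 (window h2 (2 ^ (j + 1)) (2 ^ (j + 1)))).1
  have w2 := win_lower (k := 1) hc q2 le_rfl
  have e : 2 ^ (j + 1) + 2 ^ (j + 1) = 2 ^ (j + 2) := by ring
  rw [e] at w1 w2
  have w3 : ∑ q ∈ Ioc (2 ^ (j + 1)) (2 ^ (j + 2)), r q / (2 : ℝ) ^ (j + 2) ≤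
      ∑ q ∈ Ioc (2 ^ (j + 1)) (2 ^ (j + 2)), r q / q := sum_le_sum fun q hq => by
    obtain ⟨q3, q4⟩ := mem_Ioc.1 hq
    exact div_le_div_of_nonneg_left (h0 q) (by exact_mod_cast (by omega : 0 < q))
      (by exact_mod_cast q4)
  have l3 := log_le_sub_one_of_pos (by norm_num : (0 : ℝ) < 2)
  have l2 := log_two_ge
  have j0 : (0 : ℝ) ≤ j := by positivity
  have w4 : c / (j + 2) ≤ c / (log ((2 ^ (j + 1) : ℕ) : ℝ) + 1) ^ 1 := by
    push_cast
    rw [pow_one, log_pow]
    push_cast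
    exact div_le_div_of_nonneg_left hc.le (by positivity) (by nlinarith)
  rw [← sum_div] at w3
  have t0 : (0 : ℝ) < 2 ^ j := by positivity
  have w5 : (((2 ^ (j + 1) : ℕ) : ℝ) * (c / (j + 2)) - 2 * B) / 2 ^ (j + 2) ≤
      (∑ q ∈ Ioc (2 ^ (j + 1)) (2 ^ (j + 2)), r q) / (2 : ℝ) ^ (j + 2) := by
    have := mul_le_mul_of_nonneg_left w4 (by positivity : (0 : ℝ) ≤ ((2 ^ (j + 1) : ℕ) : ℝ))
    gcongr
    linarith
  have e2 : (((2 ^ (j + 1) : ℕ) : ℝ) * (c / (j + 2)) - 2 * B) / 2 ^ (j + 2) =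
      c / 2 * (1 / ((j + 2 : ℕ) : ℝ)) - B * (1 / 2) ^ j / 2 := by
    push_cast
    rw [one_div_pow]
    field_simp
    ring
  have t1 : 0 ≤ B * (1 / 2 : ℝ) ^ j := by positivity
  rw [div_mul_eq_mul_div 2 c, le_div_iff₀ hc]
  linarith

lemma gap_lower (hA : ∀ m, MeasurableSet (A m)) (hind : iIndepSet A P) (hc : 0 < c)
    (h1 : ∀ m, 2 ≤ m → P.real (A m) ≤ B / log m ^ 1)
    (h2 : ∀ y, |∑ m ∈ range y, P.real (A m) - mu c 1 y| ≤ B) (D : ℕ) :
    ∀ᶠ q : ℕ in atTop, P.real (A q) / q ≤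
      exp (c * (D + 1) + 2 * B + 2 * B ^ 2 * (1 / c + D + 1)) *
        P.real (V A {q} (Ioc q (q + ⌈log q ^ 2 / c + D * log q⌉₊))) := by
  have B0 : 0 ≤ B := (abs_nonneg _).trans (h2 0)
  filter_upwards [ev_log 1, ev_log (2 * B), eventually_ge_atTop 2] with q l1 l2 g3
  have g5 := (Nat.ceil_lt_add_one (a := log q ^ 2 / c + D * log q) (by positivity)).le
  generalize ⌈log q ^ 2 / c + D * log q⌉₊ = g at g5
  have hq : (0 : ℝ) < q := by exact_mod_cast (by omega : 0 < q)
  have w1 := (abs_le.1 (window h2 q g)).2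
  have w2 := win_upper (k := 1) hc.le g g3
  have w3 := win_upper (k := 2) (c := 2 * B ^ 2) (by positivity) g g3
  have l0 : 0 < log (q : ℝ) := by linarith
  have D0 : (0 : ℝ) ≤ D := by positivity
  have w4 : g * (c / log q ^ 1) ≤ log q + c * (D + 1) := by
    rw [pow_one, ← mul_div_assoc, div_le_iff₀ l0]
    have := mul_le_mul_of_nonneg_right g5 hc.le
    rw [add_mul, add_mul, div_mul_cancel₀ _ hc.ne'] at this
    nlinarith
  have w5 : g * (2 * B ^ 2 / log q ^ 2) ≤ 2 * B ^ 2 * (1 / c + D + 1) := by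
    rw [← mul_div_assoc, mul_comm, mul_div_assoc]
    refine mul_le_mul_of_nonneg_left ?_ (by positivity)
    rw [div_le_iff₀ (by positivity)]
    have e : (1 / c + D + 1) * log (q : ℝ) ^ 2 = log q ^ 2 / c + D * log q ^ 2 + log q ^ 2 := by
      ring
    have : log (q : ℝ) ≤ log q ^ 2 := by nlinarith
    nlinarith
  have p1 : ∏ m ∈ Ioc q (q + g), exp (-(P.real (A m) + 2 * B ^ 2 / log m ^ 2)) ≤
      ∏ m ∈ Ioc q (q + g), (1 - P.real (A m)) := by
    refine prod_le_prod (fun m _ => (exp_pos _).le) fun m hm => ?_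
    have m1 := (mem_Ioc.1 hm).1
    have m2 : log (q : ℝ) ≤ log m := log_le_log hq (by exact_mod_cast m1.le)
    have r1 := h1 m (by omega)
    have r0 : 0 ≤ P.real (A m) := measureReal_nonneg
    rw [pow_one] at r1
    have r2 : B / log m ≤ 1 / 2 := by
      rw [div_le_iff₀ (by linarith)]
      linarith
    have r3 := pow_le_pow_left₀ r0 r1 2
    rw [div_pow] at r3
    generalize P.real (A m) = r at *
    have r4 := one_sub_inv_le_log_of_pos (show 0 < 1 - r by linarith)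
    have r5 : (1 - r)⁻¹ ≤ 1 + r + 2 * r ^ 2 := by
      rw [inv_le_iff_one_le_mul₀ (by linarith)]
      nlinarith [mul_nonneg (sq_nonneg r) (show 0 ≤ 1 - 2 * r by linarith)]
    rw [← le_log_iff_exp_le (by linarith), mul_div_assoc]
    linarith
  rw [← exp_sum, sum_neg_distrib, sum_add_distrib] at p1
  have r0 : 0 ≤ P.real (A q) := measureReal_nonneg
  rw [V_prob hA hind _ _ (disj _ _), prod_singleton, mul_left_comm, div_eq_mul_inv]
  refine mul_le_mul_of_nonneg_left (le_trans ?_ (mul_le_mul_of_nonneg_left p1 (exp_pos _).le)) r0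
  rw [← exp_add, ← exp_log (inv_pos.2 hq), log_inv]
  exact exp_le_exp.2 (by linarith)

lemma long_gaps (hA : ∀ m, MeasurableSet (A m)) (hind : iIndepSet A P) (hc : 0 < c)
    (h1 : ∀ m, 2 ≤ m → P.real (A m) ≤ B / log m ^ 1)
    (h2 : ∀ y, |∑ m ∈ range y, P.real (A m) - mu c 1 y| ≤ B) (D : ℕ) :
    ∀ᵐ ω ∂P, ∃ᶠ q : ℕ in atTop, (0 < q ∧ ω ∈ A q) ∧ ∀ m, (0 < m ∧ ω ∈ A m) → q < m →
      q + (log q ^ 2 / c + D * log q) ≤ (m : ℝ) := by
  have s : ¬ Summable fun q : ℕ =>
      P.real (V A {q} (Ioc q (q + ⌈log q ^ 2 / c + D * log q⌉₊))) := by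
    intro hs
    refine not_summable (r := fun m => P.real (A m)) hc (fun m => measureReal_nonneg) h2 ?_
    refine Summable.of_norm_bounded_eventually_nat (hs.mul_left
      (exp (c * (D + 1) + 2 * B + 2 * B ^ 2 * (1 / c + D + 1)))) ?_
    filter_upwards [gap_lower hA hind hc h1 h2 D] with q hq
    rwa [norm_of_nonneg (div_nonneg measureReal_nonneg (by positivity))]
  have a := bc2 (P := P) (fun q => V A {q} (Ioc q (q + ⌈log q ^ 2 / c + D * log q⌉₊)))
    (fun q => V_meas hA _ _ (disj _ _)) (fun q q' h => by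
      rcases lt_or_gt_of_ne h with h | h
      · exact gap_corr hA hind (fun q => ⌈log q ^ 2 / c + D * log q⌉₊) h
      · rw [Set.inter_comm]
        exact (gap_corr hA hind (fun q => ⌈log q ^ 2 / c + D * log q⌉₊) h).trans_eq
          (mul_comm _ _)) s
  filter_upwards [a] with ω hω
  refine (hω.and_eventually (eventually_gt_atTop 0)).mono fun q ⟨h3, h4⟩ =>
    ⟨⟨h4, h3.1 q (mem_singleton_self _)⟩, fun m hm hq => ?_⟩
  have b : q + ⌈log q ^ 2 / c + D * log q⌉₊ ≤ m := by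
    by_contra hh
    exact h3.2 m (mem_Ioc.2 ⟨hq, by omega⟩) hm.2
  have b' : (q : ℝ) + ⌈log q ^ 2 / c + D * log q⌉₊ ≤ m := by exact_mod_cast b
  linarith [Nat.le_ceil (log (q : ℝ) ^ 2 / c + D * log q)]

lemma range_form (hk : 1 ≤ k)
    (h2 : ∀ x : ℕ, |∑ m ∈ Icc 2 x, (P.real (A m) - c / log m ^ k)| ≤ B) (y : ℕ) :
    |∑ m ∈ range y, P.real (A m) - mu c k y| ≤ B + 2 := by
  have B0 : 0 ≤ B := (abs_nonneg _).trans (h2 0)
  have p0 : ∀ m, 0 ≤ P.real (A m) := fun m => measureReal_nonneg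
  have p1 : ∀ m, P.real (A m) ≤ 1 := fun m => measureReal_le_one
  have z0 := w_small (c := c) (m := 0) hk (by norm_num)
  have z1 := w_small (c := c) (m := 1) hk (by norm_num)
  rw [mu, ← sum_sub_distrib]
  rcases y with _ | _ | y
  · simp only [range_zero, sum_empty, abs_zero]
    linarith
  · rw [sum_range_succ, sum_range_zero, z0, abs_le]
    constructor <;> linarith [p0 0, p1 0]
  · have a := abs_le.1 (h2 (y + 1))
    rw [range_eq_Ico, sum_eq_sum_Ico_succ_bot (by omega), sum_eq_sum_Ico_succ_bot (by omega), z0, z1,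
      show Ico (0 + 1 + 1) (y + 1 + 1) = Icc 2 (y + 1) from by
        ext m
        simp only [mem_Ico, mem_Icc]
        omega, abs_le]
    constructor <;> linarith [p0 0, p1 0, p0 (0 + 1), p1 (0 + 1)]

end Pool.Agent.MP_6e51af_nt.H39
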