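import Mathlib

/-! The mean counting function `∑ c / (log m) ^ k`. -/

namespace Pool.Agent.MP_6e51af_nt.H39

open Finset Filter Real

/-- mean number of elements below `x` -/
noncomputable def mu (c : ℝ) (k x : ℕ) : ℝ := ∑ m ∈ range x, c / log m ^ k

lemma ev_log (M : ℝ) : ∀ᶠ x : ℕ in atTop, M ≤ log x :=
  (tendsto_log_atTop.comp (tendsto_natCast_atTop_atTop (R := ℝ))).eventually_ge_atTop M

lemma ev_pow (M : ℝ) (j : ℕ) : ∀ᶠ x : ℕ in atTop, M * log x ^ j ≤ x := by
  have a := (tendsto_natCast_atTop_atTop (R := ℝ)).eventually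
    ((isLittleO_pow_log_id_atTop (n := j)).bound (c := 1 / (|M| + 1)) (by positivity))
  filter_upwards [a, ev_log 0] with x h1 h2
  have h0 : (0 : ℝ) ≤ x := by positivity
  have h3 : 0 ≤ log (x : ℝ) ^ j := by positivity
  rw [id, norm_of_nonneg h3, norm_of_nonneg h0, one_div, inv_mul_eq_div,
    le_div_iff₀ (by positivity)] at h1
  have := le_abs_self M
  nlinarith

lemma ev_sqrt (M : ℝ) (j : ℕ) : ∀ᶠ x : ℕ in atTop, M * log x ^ j ≤ √x := by
  filter_upwards [ev_pow (M ^ 2) (j * 2)] with x h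
  refine le_sqrt_of_sq_le ?_
  rwa [mul_pow, ← pow_mul]

lemma log_two_ge : (1 : ℝ) / 2 ≤ log 2 := by
  have := log_two_gt_d9
  linarith

lemma log_ge_half {m : ℕ} (h : 2 ≤ m) : (1 : ℝ) / 2 ≤ log m :=
  log_two_ge.trans (log_le_log (by norm_num) (by exact_mod_cast h))

lemma w_small {c : ℝ} {k m : ℕ} (hk : 1 ≤ k) (h : m < 2) : c / log m ^ k = 0 := by
  have : log (m : ℝ) = 0 := by
    interval_cases m <;> simp
  rw [this, zero_pow (by omega), div_zero]

lemma inv_pow_le {a b : ℝ} (k : ℕ) (ha : 0 < a) (hab : a ≤ b) (hb : b ≤ 2 * a) :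
    1 / a ^ k ≤ 1 / b ^ k + k * 2 ^ k * (b - a) / b ^ (k + 1) := by
  have hb0 : 0 < b := by linarith
  obtain ⟨t, rfl⟩ : ∃ t, a = t * b := ⟨a / b, by field_simp⟩
  have t1 : t ≤ 1 := by nlinarith
  have t2 : 1 / 2 ≤ t := by nlinarith
  have h1 := one_add_mul_sub_le_pow (a := t) (by linarith) k
  have h2 : 1 ≤ 2 ^ k * t ^ k := by
    rw [← mul_pow]
    exact one_le_pow₀ (by linarith)
  have h3 : 0 < t ^ k := by positivity
  have h4 : (0 : ℝ) ≤ k * (1 - t) := mul_nonneg (by positivity) (by linarith)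
  have e : 1 / b ^ k + k * 2 ^ k * (b - t * b) / b ^ (k + 1) =
      (1 + k * 2 ^ k * (1 - t)) / b ^ k := by
    field_simp
    ring
  rw [e, mul_pow, div_le_div_iff₀ (by positivity) (by positivity), ← mul_assoc]
  refine mul_le_mul_of_nonneg_right ?_ (by positivity)
  nlinarith

lemma sum_log_le (x : ℕ) : ∑ m ∈ Ico 1 x, (log x - log m) ≤ x := by
  rcases Nat.eq_zero_or_pos x with rfl | hx
  · simp
  have h1 := pow_div_factorial_le_exp (x : ℝ) (by positivity) x
  have hx' : (0 : ℝ) < x := by exact_mod_cast hx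
  have h2 := log_le_log (by positivity) h1
  rw [log_exp, log_div (by positivity) (by positivity), log_pow, ← prod_Ico_id_eq_factorial,
    Nat.cast_prod, log_prod (fun m hm => by
      have := (mem_Ico.1 hm).1
      positivity), sum_Ico_succ_top hx] at h2
  rw [sum_sub_distrib, sum_const, Nat.card_Ico, nsmul_eq_mul, Nat.cast_sub hx]
  push_cast
  linarith

lemma mu_lower {c : ℝ} (k : ℕ) (hc : 0 < c) (x : ℕ) (hx : 2 ≤ x) :
    (x - 2) * (c / log x ^ k) ≤ mu c k x := by
  have a : ∑ m ∈ Ico 2 x, c / log x ^ k ≤ ∑ m ∈ Ico 2 x, c / log m ^ k := by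
    refine sum_le_sum fun m hm => ?_
    obtain ⟨h1, h2⟩ := mem_Ico.1 hm
    have := log_ge_half h1
    have h3 : log (m : ℝ) ≤ log x := log_le_log (by exact_mod_cast (by omega : 0 < m))
      (by exact_mod_cast h2.le)
    gcongr
  rw [sum_const, Nat.card_Ico, nsmul_eq_mul, Nat.cast_sub hx] at a
  refine a.trans (sum_le_sum_of_subset_of_nonneg (fun m hm => mem_range.2 (mem_Ico.1 hm).2)
    fun m _ _ => ?_)
  have := log_natCast_nonneg m
  positivity

lemma mu_upper {c : ℝ} {k : ℕ} (hc : 0 < c) (hk : 1 ≤ k) : ∃ C : ℝ, ∀ᶠ x : ℕ in atTop,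
    mu c k x ≤ c * x / log x ^ k + C * x / log x ^ (k + 1) := by
  refine ⟨c * k * 2 ^ k + 1, ?_⟩
  filter_upwards [ev_log 1, ev_sqrt (c * 2 ^ k) (k + 1), eventually_ge_atTop 2] with x h1 h2 h3
  have hx : (0 : ℝ) < x := by exact_mod_cast (by omega : 0 < x)
  have e : mu c k x = ∑ m ∈ Ico 1 x, c / log m ^ k := by
    rw [mu, range_eq_Ico, sum_eq_sum_Ico_succ_bot (by omega), w_small hk (by norm_num), zero_add]
  have a : ∑ m ∈ Ico 1 x, c / log m ^ k ≤ ∑ m ∈ Ico 1 x, (c / log x ^ k +
      c * k * 2 ^ k / log x ^ (k + 1) * (log x - log m) +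
      if m ∈ Icc 1 (Nat.sqrt x) then c * 2 ^ k else 0) := by
    refine sum_le_sum fun m hm => ?_
    obtain ⟨m1, m2⟩ := mem_Ico.1 hm
    have m0 : (0 : ℝ) < m := by exact_mod_cast m1
    have h4 : log (m : ℝ) ≤ log x := log_le_log m0 (by exact_mod_cast m2.le)
    have p1 : 0 ≤ c / log x ^ k := by positivity
    have p2 : 0 ≤ c * k * 2 ^ k / log x ^ (k + 1) * (log x - log m) :=
      mul_nonneg (by positivity) (by linarith)
    split_ifs with h
    · have : c / log m ^ k ≤ c * 2 ^ k := by
        by_cases h5 : m < 2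
        · rw [w_small hk h5]
          positivity
        · have := log_ge_half (m := m) (by omega)
          rw [div_le_iff₀ (by positivity), mul_assoc, ← mul_pow]
          exact le_mul_of_one_le_right hc.le (one_le_pow₀ (by linarith))
      linarith
    · have h5 : x < m ^ 2 := Nat.sqrt_lt'.1 (by simp only [mem_Icc] at h; omega)
      have h6 : log (x : ℝ) ≤ 2 * log m := by
        have := log_le_log hx (show (x : ℝ) ≤ (m : ℝ) ^ 2 by exact_mod_cast h5.le)
        rw [log_pow] at this
        exact_mod_cast this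
      have h7 := mul_le_mul_of_nonneg_left (inv_pow_le k (by linarith) h4 h6) hc.le
      have e1 : c * (1 / log (x : ℝ) ^ k + k * 2 ^ k * (log x - log m) / log x ^ (k + 1)) =
          c / log x ^ k + c * k * 2 ^ k / log x ^ (k + 1) * (log x - log m) := by ring
      rw [e1, mul_one_div] at h7
      linarith
  rw [sum_add_distrib, sum_add_distrib, sum_const, ← mul_sum, sum_ite_mem, sum_const,
    Nat.card_Ico, nsmul_eq_mul, nsmul_eq_mul, Nat.cast_sub (by omega)] at a
  have b1 : ((Ico 1 x ∩ Icc 1 (Nat.sqrt x)).card : ℝ) ≤ √x := by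
    refine le_trans ?_ Real.nat_sqrt_le_real_sqrt
    have := card_le_card (inter_subset_right (s₁ := Ico 1 x) (s₂ := Icc 1 (Nat.sqrt x)))
    rw [Nat.card_Icc] at this
    exact_mod_cast this
  have b2 : √x * (c * 2 ^ k) ≤ x / log x ^ (k + 1) := by
    rw [le_div_iff₀ (by positivity), mul_assoc]
    have := mul_le_mul_of_nonneg_left h2 (sqrt_nonneg (x : ℝ))
    rwa [mul_self_sqrt hx.le] at this
  have b3 := mul_le_mul_of_nonneg_right b1 (by positivity : 0 ≤ c * 2 ^ k)
  have b4 := mul_le_mul_of_nonneg_left (sum_log_le x)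
    (by positivity : 0 ≤ c * k * 2 ^ k / log x ^ (k + 1))
  have b5 : 0 ≤ c / log x ^ k := by positivity
  have e2 : c * x / log x ^ k + (c * k * 2 ^ k + 1) * x / log x ^ (k + 1) =
      x * (c / log x ^ k) + c * k * 2 ^ k / log x ^ (k + 1) * x + x / log x ^ (k + 1) := by ring
  rw [e, e2]
  push_cast at a
  nlinarith

lemma sum_sum (w : ℕ → ℝ) (x : ℕ) :
    ∑ y ∈ range x, ∑ m ∈ range (y + 1), w m = ∑ m ∈ range x, w m * (x - m) := by
  induction x with
  | zero => simp
  | succ x ih =>
    rw [sum_range_succ, ih, sum_range_succ, sum_range_succ, ← add_assoc, ← sum_add_distrib]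
    push_cast
    congr 1
    · exact sum_congr rfl fun m _ => by ring
    · ring

lemma sum_lin (x : ℕ) : ∑ m ∈ range x, ((x : ℝ) - 2 * m) = x := by
  have : ∀ y : ℕ, ∑ m ∈ range y, (2 * (m : ℝ)) = y * (y - 1) := by
    intro y
    induction y with
    | zero => simp
    | succ y ih =>
      rw [sum_range_succ, ih]
      push_cast
      ring
  rw [sum_sub_distrib, this, sum_const, card_range, nsmul_eq_mul]
  ring

/-- concavity gain of the mean counting function -/
lemma mu_gain {c : ℝ} {k : ℕ} (hc : 0 < c) (hk : 1 ≤ k) : ∀ᶠ x : ℕ in atTop,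
    c / 32 * x ^ 2 / log x ^ (k + 1) - x ≤
      2 * ∑ y ∈ range x, mu c k (y + 1) - x * mu c k x := by
  filter_upwards [ev_log (c + 3), eventually_ge_atTop 24] with x h1 h3
  have hx : (24 : ℝ) ≤ x := by exact_mod_cast h3
  have l2 := log_two_ge
  have l3 : log 2 ≤ 1 := by
    have := log_le_sub_one_of_pos (by norm_num : (0 : ℝ) < 2)
    linarith
  obtain ⟨j, rfl⟩ : ∃ j, k = j + 1 := ⟨k - 1, by omega⟩
  set b := log (x : ℝ) - log 2 with hb
  have b1 : 1 ≤ b := by linarith
  set κ := c / 2 / log (x : ℝ) ^ (j + 1 + 1) with hκ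
  have κ0 : 0 ≤ κ := by
    have : 0 < log (x : ℝ) := by linarith
    positivity
  have r1 : c / b ^ (j + 1) ≤ 1 := by
    rw [div_le_one (by positivity)]
    exact le_trans (by linarith) (le_self_pow₀ b1 (by omega))
  have r0 : 0 ≤ c / b ^ (j + 1) := by positivity
  have e : 2 * ∑ y ∈ range x, mu c (j + 1) (y + 1) - x * mu c (j + 1) x =
      ∑ m ∈ range x, c / log m ^ (j + 1) * (x - 2 * m) := by
    simp only [mu]
    rw [sum_sum, mul_sum, mul_sum, ← sum_sub_distrib]
    exact sum_congr rfl fun m _ => by ring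
  have a : ∑ m ∈ range x, (c / b ^ (j + 1) * (x - 2 * m) +
      (if m ∈ Icc 2 (x / 4) then κ * x / 2 else 0) -
      (if m ∈ range 2 then c / b ^ (j + 1) * x else 0)) ≤
      ∑ m ∈ range x, c / log m ^ (j + 1) * (x - 2 * m) := by
    refine sum_le_sum fun m hm => ?_
    by_cases h5 : m < 2
    · rw [w_small hk h5, if_neg (by simp; omega), if_pos (mem_range.2 h5)]
      have : (0 : ℝ) ≤ m := by positivity
      nlinarith
    have m0 : (0 : ℝ) < m := by exact_mod_cast (by omega : 0 < m)
    have m1 := log_ge_half (m := m) (by omega)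
    rw [if_neg (show m ∉ range 2 by simpa using h5), sub_zero]
    have lm : log (2 * m : ℝ) = log 2 + log m := log_mul (by norm_num) m0.ne'
    split_ifs with h
    · have h6 : (4 : ℝ) * m ≤ x := by
        have := (mem_Icc.1 h).2
        exact_mod_cast (by omega : 4 * m ≤ x)
      have h7 : log (m : ℝ) + log 2 ≤ b := by
        have := log_le_log (by positivity) (show 2 * (2 * m : ℝ) ≤ x by linarith)
        rw [log_mul (by norm_num) (by positivity), lm] at this
        linarith
      have h8 : c / b ^ (j + 1) + κ ≤ c / log m ^ (j + 1) := by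
        have q1 : log (m : ℝ) ^ j ≤ b ^ j := pow_le_pow_left₀ (by linarith) (by linarith) j
        have q2 : κ ≤ c / 2 / b ^ (j + 1 + 1) := by
          rw [hκ]
          gcongr
          linarith
        have q3 : c / b ^ (j + 1) + c / 2 / b ^ (j + 1 + 1) = c * (b + 1 / 2) / b ^ (j + 2) := by
          field_simp
          ring
        have q4 : c * (b + 1 / 2) / b ^ (j + 2) ≤ c / log m ^ (j + 1) := by
          rw [div_le_div_iff₀ (by positivity) (by positivity), mul_assoc]
          refine mul_le_mul_of_nonneg_left ?_ hc.le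
          have q5 : (b + 1 / 2) * log m ≤ b ^ 2 := by nlinarith
          have q6 := mul_le_mul q5 q1 (by positivity) (by positivity)
          calc (b + 1 / 2) * log m ^ (j + 1) = (b + 1 / 2) * log m * log m ^ j := by ring
            _ ≤ b ^ 2 * b ^ j := q6
            _ = b ^ (j + 2) := by ring
        linarith
      have h9 := mul_le_mul_of_nonneg_right h8 (show (0 : ℝ) ≤ x - 2 * m by linarith)
      have h10 := mul_le_mul_of_nonneg_left (show (x : ℝ) / 2 ≤ x - 2 * m by linarith) κ0
      linarith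
    · rw [add_zero]
      rcases le_total (2 * m : ℝ) x with h6 | h6
      · have h7 := log_le_log (by positivity) h6
        refine mul_le_mul_of_nonneg_right ?_ (by linarith)
        gcongr
        linarith
      · have h7 := log_le_log (by positivity) h6
        refine mul_le_mul_of_nonpos_right ?_ (by linarith)
        gcongr
        linarith
  rw [sum_sub_distrib, sum_add_distrib, ← mul_sum, sum_lin, sum_ite_mem, sum_ite_mem,
    inter_eq_right.2 (show Icc 2 (x / 4) ⊆ range x from fun m hm => by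
      have := (mem_Icc.1 hm).2
      exact mem_range.2 (by omega)),
    inter_eq_right.2 (show range 2 ⊆ range x from range_mono (by omega)), sum_const, sum_const,
    Nat.card_Icc, card_range, nsmul_eq_mul, nsmul_eq_mul] at a
  have n1 : (x : ℝ) / 8 ≤ ((x / 4 + 1 - 2 : ℕ) : ℝ) := by
    have : x ≤ 8 * (x / 4 + 1 - 2) := by omega
    have : (x : ℝ) ≤ 8 * ((x / 4 + 1 - 2 : ℕ) : ℝ) := by exact_mod_cast this
    linarith
  have n2 := mul_le_mul_of_nonneg_right n1 (by positivity : 0 ≤ κ * x / 2)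
  have n3 : c / 32 * x ^ 2 / log x ^ (j + 1 + 1) = x / 8 * (κ * x / 2) := by
    rw [hκ]
    ring
  have n4 := mul_le_mul_of_nonneg_right r1 (show (0 : ℝ) ≤ x by linarith)
  rw [e, n3]
  rw [Nat.cast_ofNat] at a
  linarith

end Pool.Agent.MP_6e51af_nt.H39
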