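import Pool.Agent.MP_6e51af_nt.H39.Det

/-! Probabilistic lemmas: concentration, gap events and two Borel–Cantelli lemmas. -/

namespace Pool.Agent.MP_6e51af_nt.H39

open Finset Filter Real MeasureTheory ProbabilityTheory

variable {Ω : Type*} [MeasurableSpace Ω] {P : Measure Ω} [IsProbabilityMeasure P]
  {A : ℕ → Set Ω} {c B : ℝ} {k : ℕ}

lemma bc1 (s : ℕ → Set Ω) (f : ℕ → ℝ) (hf : Summable f) (h : ∀ᶠ n in atTop, P.real (s n) ≤ f n) :
    ∀ᵐ ω ∂P, ∀ᶠ n in atTop, ω ∉ s n := by
  have a : Summable fun n => P.real (s n) := hf.of_norm_bounded_eventually_nat (by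
    filter_upwards [h] with n hn
    rwa [norm_of_nonneg measureReal_nonneg])
  refine ae_eventually_notMem ?_
  have b := a.tsum_ofReal_ne_top
  simpa only [ofReal_measureReal (measure_ne_top P _)] using b

/-- second Borel–Cantelli lemma for negatively correlated events -/
lemma bc2 (U : ℕ → Set Ω) (hU : ∀ q, MeasurableSet (U q))
    (h : ∀ q q', q ≠ q' → P.real (U q ∩ U q') ≤ P.real (U q) * P.real (U q'))
    (hs : ¬ Summable fun q => P.real (U q)) : ∀ᵐ ω ∂P, ∃ᶠ q in atTop, ω ∈ U q := by
  have key : ∀ n0 : ℕ, ∀ᵐ ω ∂P, ∃ q, n0 ≤ q ∧ ω ∈ U q := by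
    intro n0
    set N := {ω | ¬ ∃ q, n0 ≤ q ∧ ω ∈ U q} with hN
    have mN : MeasurableSet N := by
      have : N = (⋃ q, ⋃ _ : n0 ≤ q, U q)ᶜ := by
        ext ω
        simp [hN]
      rw [this]
      exact (MeasurableSet.iUnion fun q => MeasurableSet.iUnion fun _ => hU q).compl
    have main : ∀ T : Finset ℕ, (∀ q ∈ T, n0 ≤ q) →
        (∑ q ∈ T, P.real (U q)) ^ 2 * P.real N ≤ ∑ q ∈ T, P.real (U q) := by
      intro T hT
      set s := ∑ q ∈ T, P.real (U q) with hs
      have i1 : ∀ q, Integrable ((U q).indicator fun _ => (1 : ℝ)) P := fun q =>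
        (integrable_const _).indicator (hU q)
      have i2 : ∀ q q', Integrable ((U q ∩ U q').indicator fun _ => (1 : ℝ)) P := fun q q' =>
        (integrable_const _).indicator ((hU q).inter (hU q'))
      have j1 := integrable_finsetSum T fun q _ => i1 q
      have j2 := integrable_finsetSum T fun q _ => integrable_finsetSum T fun q' _ => i2 q q'
      have j3 : Integrable (fun ω =>
          (∑ q ∈ T, ∑ q' ∈ T, (U q ∩ U q').indicator (fun _ => (1 : ℝ)) ω) -
            2 * s * (∑ q ∈ T, (U q).indicator (fun _ => (1 : ℝ)) ω)) P := j2.sub (j1.const_mul _)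
      have a : ∫ ω, N.indicator (fun _ => s ^ 2) ω ∂P ≤
          ∫ ω, ((∑ q ∈ T, ∑ q' ∈ T, (U q ∩ U q').indicator (fun _ => (1 : ℝ)) ω) -
            2 * s * (∑ q ∈ T, (U q).indicator (fun _ => (1 : ℝ)) ω) + s ^ 2) ∂P := by
        refine integral_mono ((integrable_const _).indicator mN)
          (j3.add (integrable_const _)) fun ω => ?_
        have e : (∑ q ∈ T, ∑ q' ∈ T, (U q ∩ U q').indicator (fun _ => (1 : ℝ)) ω) =
            (∑ q ∈ T, (U q).indicator (fun _ => (1 : ℝ)) ω) ^ 2 := by
          rw [sq, sum_mul_sum]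
          refine sum_congr rfl fun q _ => sum_congr rfl fun q' _ => ?_
          by_cases h1 : ω ∈ U q <;> by_cases h2 : ω ∈ U q' <;> simp [h1, h2]
        simp only [e]
        by_cases hω : ω ∈ N
        · have : ∑ q ∈ T, (U q).indicator (fun _ => (1 : ℝ)) ω = 0 :=
            sum_eq_zero fun q hq => Set.indicator_of_notMem (fun hh => hω ⟨q, hT q hq, hh⟩) _
          rw [this, Set.indicator_of_mem hω]
          linarith
        · rw [Set.indicator_of_notMem hω]
          nlinarith [sq_nonneg (∑ q ∈ T, (U q).indicator (fun _ => (1 : ℝ)) ω - s)]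
      rw [integral_add j3 (integrable_const _),
        integral_sub j2 (j1.const_mul _), integral_const_mul,
        integral_finsetSum _ fun q _ => i1 q,
        integral_finsetSum _ fun q _ => integrable_finsetSum T fun q' _ => i2 q q',
        integral_indicator_const _ mN] at a
      simp only [integral_finsetSum _ fun q' _ => i2 _ q', integral_indicator_const _ (hU _),
        integral_indicator_const _ ((hU _).inter (hU _)), smul_eq_mul, mul_one, integral_const,
        probReal_univ, one_mul, ← hs] at a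
      have b : ∑ q ∈ T, ∑ q' ∈ T, P.real (U q ∩ U q') ≤
          ∑ q ∈ T, ∑ q' ∈ T, (P.real (U q) * P.real (U q') +
            if q = q' then P.real (U q) else 0) := by
        refine sum_le_sum fun q _ => sum_le_sum fun q' _ => ?_
        split_ifs with e
        · subst e
          rw [Set.inter_self]
          have : 0 ≤ P.real (U q) * P.real (U q) := mul_self_nonneg _
          linarith
        · rw [add_zero]
          exact h q q' e
      simp only [sum_add_distrib, sum_ite_eq] at b
      rw [← sum_mul_sum, sum_ite_of_true (fun q hq => hq), ← hs] at b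
      nlinarith
    rw [ae_iff, ← hN, ← measureReal_eq_zero_iff (measure_ne_top _ _)]
    by_contra h0
    have p0 : 0 < P.real N := lt_of_le_of_ne measureReal_nonneg (Ne.symm h0)
    refine hs ((summable_nat_add_iff n0).1 (summable_of_sum_range_le (c := 1 / P.real N)
      (fun _ => measureReal_nonneg) fun n => ?_))
    have a := main ((range n).map (addRightEmbedding n0)) (by
      intro q hq
      obtain ⟨i, -, rfl⟩ := mem_map.1 hq
      simp)
    rw [sum_map] at a
    simp only [addRightEmbedding_apply] at a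
    have b : 0 ≤ ∑ i ∈ range n, P.real (U (i + n0)) := sum_nonneg fun _ _ => measureReal_nonneg
    rw [le_div_iff₀ p0]
    by_contra hh
    nlinarith
  filter_upwards [ae_all_iff.2 key] with ω hω
  exact frequently_atTop.2 fun n0 => (hω n0).imp fun q hq => ⟨hq.1, hq.2⟩

lemma conc (hA : ∀ m, MeasurableSet (A m)) (hind : iIndepSet A P) :
    ∀ᵐ ω ∂P, ∀ᶠ x : ℕ in atTop,
      |∑ m ∈ range x, ((A m).indicator (fun _ => (1 : ℝ)) ω - P.real (A m))| ≤ √(x * log x) := by
  have hI := (hind.iIndepFun_indicator (β := ℝ)).comp (fun m t => t - P.real (A m))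
    (fun m => measurable_id.sub_const _)
  have hI' := hI.comp (fun _ t => -t) (fun _ => measurable_neg)
  have hG : ∀ m, HasSubgaussianMGF
      (fun ω => (A m).indicator (fun _ => (1 : ℝ)) ω - P.real (A m)) (1 / 4) P := by
    intro m
    have := hasSubgaussianMGF_of_mem_Icc (μ := P) (X := (A m).indicator fun _ => (1 : ℝ))
      (a := 0) (b := 1) (measurable_const.indicator (hA m)).aemeasurable
      (ae_of_all _ fun ω => by by_cases h : ω ∈ A m <;> simp [h])
    rw [integral_indicator_const _ (hA m), smul_eq_mul, mul_one] at this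
    convert this using 1
    norm_num
  have hs : Summable fun x : ℕ => ((x : ℝ) ^ 2)⁻¹ := summable_nat_pow_inv.2 one_lt_two
  have e : ∀ x : ℕ, 1 ≤ x →
      exp (-(√(x * log x)) ^ 2 / (2 * x * ((1 / 4 : NNReal) : ℝ))) = ((x : ℝ) ^ 2)⁻¹ := by
    intro x hx
    have h0 : (0 : ℝ) < x := by exact_mod_cast hx
    have h1 := log_natCast_nonneg x
    rw [sq_sqrt (by positivity), ← exp_log (show 0 < ((x : ℝ) ^ 2)⁻¹ by positivity), log_inv,
      log_pow]
    congr 1
    push_cast
    field_simp
    ring
  have a := bc1 (P := P) (fun x => {ω | √(x * log x) ≤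
      ∑ m ∈ range x, ((A m).indicator (fun _ => (1 : ℝ)) ω - P.real (A m))}) _ hs (by
    filter_upwards [eventually_ge_atTop 1] with x hx
    rw [← e x hx]
    exact HasSubgaussianMGF.measure_sum_range_ge_le_of_iIndepFun hI (fun i _ => hG i)
      (sqrt_nonneg _))
  have b := bc1 (P := P) (fun x => {ω | √(x * log x) ≤
      ∑ m ∈ range x, -((A m).indicator (fun _ => (1 : ℝ)) ω - P.real (A m))}) _ hs (by
    filter_upwards [eventually_ge_atTop 1] with x hx
    rw [← e x hx]
    exact HasSubgaussianMGF.measure_sum_range_ge_le_of_iIndepFun hI' (fun i _ => (hG i).neg)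
      (sqrt_nonneg _))
  filter_upwards [a, b] with ω h1 h2
  filter_upwards [h1, h2] with x h3 h4
  simp only [not_le, sum_neg_distrib] at h3 h4
  exact abs_le.2 ⟨by linarith, h3.le⟩

open Classical in
lemma near_ae (hA : ∀ m, MeasurableSet (A m)) (hind : iIndepSet A P)
    (h2 : ∀ y, |∑ m ∈ range y, P.real (A m) - mu c k y| ≤ B) :
    ∀ᵐ ω ∂P, Near (fun m => 0 < m ∧ ω ∈ A m) c k := by
  filter_upwards [conc hA hind] with ω hω δ hδ
  obtain ⟨y0, hy0⟩ := eventually_atTop.1 hω
  have a : ∀ y : ℕ, |∑ m ∈ range y, ((A m).indicator (fun _ => (1 : ℝ)) ω - P.real (A m))| ≤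
      y0 + √(y * log y) := by
    intro y
    have s0 := sqrt_nonneg (y * log y : ℝ)
    by_cases h : y0 ≤ y
    · have := hy0 y h
      have : (0 : ℝ) ≤ y0 := by positivity
      linarith
    · have b := (abs_sum_le_sum_abs _ _).trans (sum_le_card_nsmul (range y)
        (fun m => |(A m).indicator (fun _ => (1 : ℝ)) ω - P.real (A m)|) 1 fun m _ => by
          have p0 : 0 ≤ P.real (A m) := measureReal_nonneg
          have p1 : P.real (A m) ≤ 1 := measureReal_le_one
          by_cases hm : ω ∈ A m
          · rw [Set.indicator_of_mem hm, abs_le]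
            constructor <;> linarith
          · rw [Set.indicator_of_notMem hm, abs_le]
            constructor <;> linarith)
      rw [card_range, nsmul_eq_mul, mul_one] at b
      have : (y : ℝ) ≤ y0 := by exact_mod_cast (by omega)
      linarith
  have b : ∀ y : ℕ, |(Nat.count (fun m => 0 < m ∧ ω ∈ A m) y : ℝ) -
      ∑ m ∈ range y, (A m).indicator (fun _ => (1 : ℝ)) ω| ≤ 1 := by
    intro y
    rcases y with _ | y
    · simp
    have : (Nat.count (fun m => 0 < m ∧ ω ∈ A m) (y + 1) : ℝ) =
        ∑ m ∈ range y, (A (m + 1)).indicator (fun _ => (1 : ℝ)) ω := by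
      induction y with
      | zero => simp [Nat.count_succ]
      | succ y ih =>
        rw [Nat.count_succ, sum_range_succ, ← ih]
        by_cases hm : ω ∈ A (y + 1) <;> simp [hm]
    rw [this, sum_range_succ']
    by_cases hm : ω ∈ A 0 <;> simp [hm]
  filter_upwards [ev_log 1, ev_pow (2 / δ * (1 + y0 + B)) (k + 1), ev_sqrt (2 / δ) (k + 2)]
    with x h3 h4 h5 y hy
  have l0 : 0 < log (x : ℝ) := by linarith
  have x0 : (0 : ℝ) ≤ x := by positivity
  have d1 : √(y * log y) ≤ √x * log x := by
    have hy' : (y : ℝ) ≤ x := by exact_mod_cast hy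
    have l1 : log (y : ℝ) ≤ log x := by
      rcases Nat.eq_zero_or_pos y with rfl | h0
      · simpa using l0.le
      · exact log_le_log (by exact_mod_cast h0) hy'
    refine sqrt_le_iff.2 ⟨by positivity, ?_⟩
    rw [mul_pow, sq_sqrt x0]
    exact mul_le_mul hy' (by nlinarith) (log_natCast_nonneg y) x0
  have d2 : 1 + y0 + B ≤ δ / 2 * x / log x ^ (k + 1) := by
    rw [le_div_iff₀ (by positivity)]
    have := mul_le_mul_of_nonneg_left h4 (by positivity : 0 ≤ δ / 2)
    refine le_trans (le_of_eq ?_) this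
    field_simp
  have d3 : √x * log x ≤ δ / 2 * x / log x ^ (k + 1) := by
    rw [le_div_iff₀ (by positivity)]
    have := mul_le_mul_of_nonneg_left h5 (by positivity : 0 ≤ δ / 2 * √x)
    rw [mul_assoc (δ / 2) √x √x, mul_self_sqrt x0] at this
    refine le_trans (le_of_eq ?_) this
    field_simp
    ring
  have e : δ * x / log x ^ (k + 1) =
      δ / 2 * x / log x ^ (k + 1) + δ / 2 * x / log x ^ (k + 1) := by ring
  have a1 := abs_le.1 (a y)
  have b1 := abs_le.1 (b y)
  have c1 := abs_le.1 (h2 y)
  rw [sum_sub_distrib] at a1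
  rw [abs_le]
  constructor <;> linarith

/-- the events indexed by `s` occur and those indexed by `t` do not -/
def V (A : ℕ → Set Ω) (s t : Finset ℕ) : Set Ω := {ω | (∀ m ∈ s, ω ∈ A m) ∧ ∀ m ∈ t, ω ∉ A m}

omit [MeasurableSpace Ω] in
lemma V_eq (s t : Finset ℕ) (h : Disjoint s t) :
    V A s t = ⋂ m ∈ s ∪ t, if m ∈ s then A m else (A m)ᶜ := by
  ext ω
  simp only [V, Set.mem_ofPred_eq, Set.mem_iInter, mem_union]
  constructor
  · rintro ⟨h1, h2⟩ m hm
    split_ifs with h3
    · exact h1 m h3
    · exact h2 m (hm.resolve_left h3)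
  · intro h1
    refine ⟨fun m hm => by simpa [hm] using h1 m (Or.inl hm), fun m hm => ?_⟩
    have h3 : m ∉ s := fun hh => disjoint_left.1 h hh hm
    simpa [h3] using h1 m (Or.inr hm)

lemma V_meas (hA : ∀ m, MeasurableSet (A m)) (s t : Finset ℕ) (h : Disjoint s t) :
    MeasurableSet (V A s t) := by
  rw [V_eq s t h]
  refine Finset.measurableSet_biInter _ fun m _ => ?_
  split_ifs
  exacts [hA m, (hA m).compl]

lemma V_prob (hA : ∀ m, MeasurableSet (A m)) (hind : iIndepSet A P) (s t : Finset ℕ)
    (h : Disjoint s t) :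
    P.real (V A s t) = (∏ m ∈ s, P.real (A m)) * ∏ m ∈ t, (1 - P.real (A m)) := by
  rw [V_eq s t h, Measure.real, ((iIndepSet_iff_iIndep A P).1 hind).meas_biInter (by
    intro m _
    have : MeasurableSet[MeasurableSpace.generateFrom {A m}] (A m) :=
      MeasurableSpace.measurableSet_generateFrom rfl
    split_ifs
    exacts [this, this.compl]), ENNReal.toReal_prod, prod_union h]
  congr 1
  · exact prod_congr rfl fun m hm => by rw [if_pos hm, Measure.real]
  · refine prod_congr rfl fun m hm => ?_
    rw [if_neg fun hh => disjoint_left.1 h hh hm, ← Measure.real, probReal_compl_eq_one_sub (hA m)]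

lemma disj (q g : ℕ) : Disjoint {q} (Ioc q (q + g)) := by simp

lemma gap_corr (hA : ∀ m, MeasurableSet (A m)) (hind : iIndepSet A P) (g : ℕ → ℕ) {q q' : ℕ}
    (h : q < q') : P.real (V A {q} (Ioc q (q + g q)) ∩ V A {q'} (Ioc q' (q' + g q'))) ≤
      P.real (V A {q} (Ioc q (q + g q))) * P.real (V A {q'} (Ioc q' (q' + g q'))) := by
  by_cases h1 : q' ≤ q + g q
  · have : V A {q} (Ioc q (q + g q)) ∩ V A {q'} (Ioc q' (q' + g q')) = ∅ :=
      Set.eq_empty_of_forall_notMem fun ω hω =>
        hω.1.2 q' (mem_Ioc.2 ⟨h, h1⟩) (hω.2.1 q' (mem_singleton_self _))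
    rw [this, measureReal_empty]
    exact mul_nonneg measureReal_nonneg measureReal_nonneg
  · have : V A {q} (Ioc q (q + g q)) ∩ V A {q'} (Ioc q' (q' + g q')) =
        V A ({q} ∪ {q'}) (Ioc q (q + g q) ∪ Ioc q' (q' + g q')) := by
      ext ω
      simp only [V, Set.mem_inter_iff, Set.mem_ofPred_eq, forall_mem_union]
      tauto
    rw [this, V_prob hA hind _ _ (disj _ _), V_prob hA hind _ _ (disj _ _), V_prob hA hind,
      prod_union, prod_union]
    · exact le_of_eq (by ring)
    all_goals
      rw [disjoint_left]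
      intro m
      simp only [mem_union, mem_singleton, mem_Ioc]
      omega

end Pool.Agent.MP_6e51af_nt.H39
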